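import Pool.Agent.H.MP_d6d0a6_lc.C

/-! The E-pattern languages over a finite alphabet with at least five letters are not inferrable
from positive data. -/

namespace Pool.Agent.Results.MP_3f2786_lc.No

/-- The E-pattern language of a word over variables (`inl`) and letters (`inr`). -/
def lang {n : ℕ} (α : List (ℕ ⊕ Fin n)) : Set (List (Fin n)) :=
  {w | ∃ σ : ℕ → List (Fin n), w = α.flatMap (Sum.elim σ fun a => [a])}

/-- The learner `M` converges on every text for every E-pattern language over `n` letters to a
pattern generating that language. -/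
def Infers {n : ℕ} (M : List (List (Fin n)) → List (ℕ ⊕ Fin n)) : Prop :=
  ∀ α : List (ℕ ⊕ Fin n), α ≠ [] → ∀ t : ℕ → List (Fin n), Set.range t = lang α →
    ∃ β, lang β = lang α ∧ ∃ N : ℕ, ∀ m ≥ N, M ((List.range m).map t) = β

theorem result (n : ℕ) (hn : 5 ≤ n) :
    ¬∃ M : List (List (Fin n)) → List (ℕ ⊕ Fin n), Computable M ∧ Infers M :=
  fun ⟨M, _, h⟩ => Pool.Agent.H.MP_d6d0a6_lc.main (by omega) M fun α h1 _ => h α h1

end Pool.Agent.Results.MP_3f2786_lc.No
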